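import Mathlib

/-!
Definitions for the games `G_1(N[A], not P)` of problem MP_953c35_gt.
-/

namespace Pool.Agent.Lib.MP_953c35_gt

open Set

variable {X : Type} [TopologicalSpace X]

/-- `𝒜` is an ideal base: any two members lie inside a third one. -/
def IdealBase (𝒜 : Set (Set X)) : Prop :=
  ∀ A₁ ∈ 𝒜, ∀ A₂ ∈ 𝒜, ∃ A₃ ∈ 𝒜, A₁ ∪ A₂ ⊆ A₃

/-- `𝒰 ∈ O(X, ℬ)`. -/
def OCover (ℬ : Set (Set X)) (𝒰 : Set (Set X)) : Prop :=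
  (∀ U ∈ 𝒰, IsOpen U) ∧ ⋃₀ 𝒰 = univ ∧ univ ∉ 𝒰 ∧ ∀ B ∈ ℬ, ∃ U ∈ 𝒰, B ⊆ U

/-- `𝒰 ∈ Γ(X, ℬ)`. -/
def GammaCover (ℬ : Set (Set X)) (𝒰 : Set (Set X)) : Prop :=
  𝒰.Infinite ∧ (∀ U ∈ 𝒰, IsOpen U) ∧ ⋃₀ 𝒰 = univ ∧ univ ∉ 𝒰 ∧
    ∀ B ∈ ℬ, {U | U ∈ 𝒰 ∧ ¬ B ⊆ U}.Finite

/-- `U` is a legal answer of Two to the move `A`. -/
def Legal (A U : Set X) : Prop := IsOpen U ∧ A ⊆ U ∧ U ≠ univ

/-- Two has a winning (full-information) strategy in `G_1(N[𝒜], not P)`: `σ n` answers the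
moves `A_0, ..., A_n` of One. -/
def TwoWins (𝒜 : Set (Set X)) (P : Set (Set X) → Prop) : Prop :=
  ∃ σ : (n : ℕ) → (Fin (n + 1) → Set X) → Set X,
    (∀ (n : ℕ) (A : Fin (n + 1) → Set X), (∀ i, A i ∈ 𝒜) → Legal (A (Fin.last n)) (σ n A)) ∧
    ∀ A : ℕ → Set X, (∀ n, A n ∈ 𝒜) →
      ¬ P (range fun n : ℕ => σ n (fun i : Fin (n + 1) => A i))

/-- Two has a winning Markov strategy in `G_1(N[𝒜], not P)`. -/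
def TwoWinsMarkov (𝒜 : Set (Set X)) (P : Set (Set X) → Prop) : Prop :=
  ∃ σ : Set X → ℕ → Set X,
    (∀ A ∈ 𝒜, ∀ n : ℕ, Legal A (σ A n)) ∧
    ∀ A : ℕ → Set X, (∀ n, A n ∈ 𝒜) → ¬ P (range fun n : ℕ => σ (A n) n)

end Pool.Agent.Lib.MP_953c35_gt
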