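import Mathlib
import Pool.Agent.Lib.MP_953c35_gt.Defs

-- part Pool.Agent.Lib.MP_953c35_gt.Guess
section

/-!
Club guessing for points of countable cofinality (Shelah), in the form needed for the
cover-game counterexample.
-/

namespace Pool.Agent.Lib.MP_953c35_gt

set_option linter.unusedSectionVars false

open Set Cardinal Order

section General

variable {α : Type} [ConditionallyCompleteLinearOrderBot α] [WellFoundedLT α]

/-- A set of cardinality below the cofinality is strictly bounded. -/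
theorem exists_gt_of_mk_lt {s : Set α} (hs : #s < cof α) : ∃ x, ∀ y ∈ s, y < x := by
  apply not_isCofinal_iff.1
  intro h
  exact (cof_le h).not_gt hs

theorem exists_gt_seq (h0 : ℵ₀ < cof α) (y : ℕ → α) : ∃ x, ∀ n, y n < x := by
  obtain ⟨x, hx⟩ := exists_gt_of_mk_lt (s := range y)
    (lt_of_le_of_lt (by simpa using mk_range_le_lift (f := y)) h0)
  exact ⟨x, fun n => hx _ ⟨n, rfl⟩⟩

theorem bddAbove_seq (h0 : ℵ₀ < cof α) (y : ℕ → α) : BddAbove (range y) := by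
  obtain ⟨x, hx⟩ := exists_gt_seq h0 y
  exact ⟨x, by rintro _ ⟨n, rfl⟩; exact (hx n).le⟩

theorem exists_gt' (h0 : ℵ₀ < cof α) (a : α) : ∃ x, a < x := by
  obtain ⟨x, hx⟩ := exists_gt_seq h0 (fun _ => a)
  exact ⟨x, hx 0⟩

/-- The closure points of a function form a club. -/
theorem isClub_closure (h0 : ℵ₀ < cof α) (F : α → α) : IsClub {δ : α | ∀ x < δ, F x < δ} ∨
    ∃ a : α, ¬ BddAbove (F '' Iio a) := by
  by_cases hb : ∃ a : α, ¬ BddAbove (F '' Iio a)
  · exact Or.inr hb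
  left
  push Not at hb
  refine ⟨?_, ?_⟩
  · intro t ht htne _ a ha x hx
    obtain ⟨y, hy, hxy⟩ := (lt_isLUB_iff ha).1 hx
    exact (ht hy x hxy).trans_le (ha.1 hy)
  · intro a
    have hstep : ∀ b : α, ∃ c, b < c ∧ ∀ x < b, F x < c := by
      intro b
      obtain ⟨u, hu⟩ := hb b
      obtain ⟨c, hc⟩ := exists_gt' h0 (max b u)
      exact ⟨c, (le_max_left _ _).trans_lt hc, fun x hx =>
        ((hu ⟨x, hx, rfl⟩).trans (le_max_right _ _)).trans_lt hc⟩
    choose G hG1 hG2 using hstep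
    let y : ℕ → α := fun n => G^[n] a
    have hy : ∀ n, y (n + 1) = G (y n) := fun n => Function.iterate_succ_apply' G n a
    have hbdd := bddAbove_seq h0 y
    refine ⟨sSup (range y), ?_, le_csSup hbdd ⟨0, rfl⟩⟩
    intro x hx
    obtain ⟨_, ⟨n, rfl⟩, hn⟩ := (lt_csSup_iff hbdd (range_nonempty y)).1 hx
    have := hG2 (y n) x hn
    rw [← hy] at this
    exact this.trans_le (le_csSup hbdd ⟨n + 1, rfl⟩)

/-- The largest point of `E` not above `ξ`. -/
noncomputable def drop (E : Set α) (ξ : α) : α := sSup (E ∩ Iic ξ)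

theorem bdd_drop (E : Set α) (ξ : α) : BddAbove (E ∩ Iic ξ) := ⟨ξ, fun _ h => h.2⟩

theorem drop_le (E : Set α) (ξ : α) : drop E ξ ≤ ξ := csSup_le' (fun _ h => h.2)

theorem le_drop {E : Set α} {ξ y : α} (hy : y ∈ E) (h : y ≤ ξ) : y ≤ drop E ξ :=
  le_csSup (bdd_drop E ξ) ⟨hy, h⟩

theorem drop_mem {E : Set α} (hE : IsClub E) (h0 : ⊥ ∈ E) (ξ : α) : drop E ξ ∈ E :=
  hE.csSup_mem inter_subset_left ⟨⊥, h0, bot_le⟩ (bdd_drop E ξ)

theorem drop_mono_left {E E' : Set α} (h : E ⊆ E') (ξ : α) : drop E ξ ≤ drop E' ξ :=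
  csSup_le_csSup' (bdd_drop E' ξ) (inter_subset_inter_left _ h)

theorem drop_mono_right (E : Set α) : Monotone (drop E) := fun _ b h =>
  csSup_le_csSup' (bdd_drop E b) (inter_subset_inter_right _ (Iic_subset_Iic.2 h))

/-- `c` is a ladder for `δ`. -/
def IsLadder (δ : α) (c : ℕ → α) : Prop :=
  StrictMono c ∧ (∀ n, c n < δ) ∧ ∀ x < δ, ∃ n, x < c n

/-- `δ` is a limit of points of `E`. -/
def IsAcc (E : Set α) (δ : α) : Prop := ∀ x < δ, ∃ y ∈ E, x < y ∧ y < δ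

theorem isLadder_sSup (h0 : ℵ₀ < cof α) {y : ℕ → α} (hy : StrictMono y) :
    IsLadder (sSup (range y)) y := by
  have hbdd := bddAbove_seq h0 y
  refine ⟨hy, fun n => (hy (Nat.lt_succ_self n)).trans_le (le_csSup hbdd ⟨n + 1, rfl⟩), ?_⟩
  intro x hx
  obtain ⟨_, ⟨n, rfl⟩, hn⟩ := (lt_csSup_iff hbdd (range_nonempty y)).1 hx
  exact ⟨n, hn⟩

theorem exists_acc (h0 : ℵ₀ < cof α) {E : Set α} (hE : IsClub E) :
    ∃ δ, (∃ c, IsLadder δ c) ∧ IsAcc E δ := by
  have hstep : ∀ b : α, ∃ c ∈ E, b < c := by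
    intro b
    obtain ⟨u, hu⟩ := exists_gt' h0 b
    obtain ⟨c, hc, huc⟩ := hE.isCofinal u
    exact ⟨c, hc, hu.trans_le huc⟩
  choose G hG1 hG2 using hstep
  let y : ℕ → α := fun n => G^[n + 1] ⊥
  have hy : ∀ n, y (n + 1) = G (y n) := fun n => Function.iterate_succ_apply' G (n + 1) ⊥
  have hyE : ∀ n, y n ∈ E := fun n => by
    have : y n = G (G^[n] ⊥) := Function.iterate_succ_apply' G n ⊥
    rw [this]; exact hG1 _
  have hmono : StrictMono y := strictMono_nat_of_lt_succ fun n => by rw [hy]; exact hG2 _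
  have hl := isLadder_sSup h0 hmono
  refine ⟨_, ⟨y, hl⟩, fun x hx => ?_⟩
  obtain ⟨n, hn⟩ := hl.2.2 x hx
  exact ⟨y n, hyE n, hn, hl.2.1 n⟩

/-- An antitone map from a linear order to a well-order is eventually constant. -/
theorem antitone_eventually_const {ι : Type} [LinearOrder ι] [Nonempty ι] {f : ι → α}
    (hf : Antitone f) : ∃ i, ∀ j, i ≤ j → f j = f i := by
  obtain ⟨_, ⟨i, rfl⟩, hi⟩ := WellFounded.has_min (wellFounded_lt (α := α)) (range f)
    (range_nonempty f)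
  exact ⟨i, fun j hij => le_antisymm (hf hij) (not_lt.1 (hi _ ⟨j, rfl⟩))⟩

/-- Core of Shelah's club guessing argument. -/
theorem guess_core {ι : Type} [LinearOrder ι] [WellFoundedLT ι] (hι0 : ℵ₀ < cof ι)
    (hι : #ι < cof α) (c : α → ℕ → α) :
    ∃ E : Set α, IsClub E ∧ ⊥ ∈ E ∧ ∀ E' : Set α, IsClub E' → ⊥ ∈ E' →
      ∃ δ, (∃ c', IsLadder δ c') ∧ IsAcc E δ ∧ ∀ n, drop E (c δ n) ∈ E' := by
  have h0 : ℵ₀ < cof α := (hι0.trans_le (cof_le_cardinalMk ι)).trans hι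
  by_contra hcon
  push Not at hcon
  have hΦ : ∀ E : Set α, ∃ E' : Set α, IsClub E' ∧ ⊥ ∈ E' ∧ (IsClub E → ⊥ ∈ E →
      ∀ δ, (∃ c', IsLadder δ c') → IsAcc E δ → ∃ n, drop E (c δ n) ∉ E') := by
    intro E
    by_cases h : IsClub E ∧ ⊥ ∈ E
    · obtain ⟨E', h1, h2, h3⟩ := hcon E h.1 h.2
      exact ⟨E', h1, h2, fun _ _ => h3⟩
    · exact ⟨univ, IsClub.univ, mem_univ _, fun h1 h2 => absurd ⟨h1, h2⟩ h⟩
  choose Φ hΦ1 hΦ2 hΦ3 using hΦ
  let D : ι → Set α := WellFounded.fix (wellFounded_lt (α := ι))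
    (fun β ih => ⋂ γ : Iio β, Φ (ih γ.1 γ.2))
  have hD : ∀ β, D β = ⋂ γ : Iio β, Φ (D γ.1) := fun β => by
    simp only [D]; rw [WellFounded.fix_eq]
  have hclub : ∀ β, IsClub (D β) := fun β => by
    rw [hD]
    apply IsClub.iInter h0.ne' _ (fun γ => hΦ1 _)
    simpa using (mk_set_le _).trans_lt hι
  have hbot : ∀ β, ⊥ ∈ D β := fun β => by
    rw [hD]; exact mem_iInter.2 fun γ => hΦ2 _
  have hanti : Antitone D := fun β β' h => by
    rw [hD β, hD β']
    intro x hx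
    exact mem_iInter.2 fun γ => mem_iInter.1 hx ⟨γ.1, lt_of_lt_of_le γ.2 h⟩
  have hall : IsClub (⋂ β, D β) := IsClub.iInter h0.ne' (by simpa using hι) hclub
  obtain ⟨δ, hδ1, hδ2⟩ := exists_acc h0 hall
  have hacc : ∀ β, IsAcc (D β) δ := fun β x hx => by
    obtain ⟨y, hy, h1, h2⟩ := hδ2 x hx
    exact ⟨y, mem_iInter.1 hy β, h1, h2⟩
  have : Nonempty ι := by
    by_contra hne
    rw [not_nonempty_iff] at hne
    simp at hι0
  have hev : ∀ n, ∃ i, ∀ j, i ≤ j → drop (D j) (c δ n) = drop (D i) (c δ n) := fun n =>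
    antitone_eventually_const (f := fun j => drop (D j) (c δ n))
      (fun _ _ h => drop_mono_left (hanti h) _)
  choose i hi using hev
  have hbd : ∀ z : ℕ → ι, ∃ x, ∀ n, z n < x := fun z => by
    have : ¬ IsCofinal (range z) := fun h => (cof_le h).not_gt
      (lt_of_le_of_lt (by simpa using mk_range_le_lift (f := z)) hι0)
    obtain ⟨x, hx⟩ := not_isCofinal_iff.1 this
    exact ⟨x, fun n => hx _ ⟨n, rfl⟩⟩
  obtain ⟨β, hβ⟩ := hbd i
  obtain ⟨β', hβ'⟩ := hbd (fun _ => β)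
  obtain ⟨n, hn⟩ := hΦ3 (D β) (hclub β) (hbot β) δ hδ1 (hacc β)
  apply hn
  have h1 : drop (D β) (c δ n) = drop (D β') (c δ n) := by
    rw [hi n β (hβ n).le, hi n β' ((hβ n).trans (hβ' 0)).le]
  rw [h1]
  have h2 := drop_mem (hclub β') (hbot β') (c δ n)
  have h3 : D β' ⊆ Φ (D β) := by
    intro x hx
    rw [hD β'] at hx
    exact mem_iInter.1 hx ⟨β, hβ' 0⟩
  exact h3 h2

/-- Club guessing, phrased with closure under functions. -/
theorem guess {ι : Type} [LinearOrder ι] [WellFoundedLT ι] (hι0 : ℵ₀ < cof ι)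
    (hι : #ι < cof α) (hreg : ∀ a : α, #(Iio a) < cof α) :
    ∃ (T : Set α) (e : α → ℕ → α), (∀ δ ∈ T, IsLadder δ (e δ)) ∧
      ∀ F : α → α, ∃ δ ∈ T, ∀ n, F (e δ n) < e δ (n + 1) := by
  classical
  have h0 : ℵ₀ < cof α := (hι0.trans_le (cof_le_cardinalMk ι)).trans hι
  have hc : ∀ δ : α, ∃ c : ℕ → α, (∃ c', IsLadder δ c') → IsLadder δ c := by
    intro δ
    by_cases h : ∃ c', IsLadder δ c'
    · obtain ⟨c', hc'⟩ := h
      exact ⟨c', fun _ => hc'⟩
    · exact ⟨fun _ => ⊥, fun h' => absurd h' h⟩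
  choose c hc using hc
  obtain ⟨E, hE, hE0, hg⟩ := guess_core hι0 hι c
  have hsub : ∀ δ : α, ∃ φ : ℕ → ℕ, (∃ c', IsLadder δ c') → IsAcc E δ →
      IsLadder δ (fun n => drop E (c δ (φ n))) := by
    intro δ
    by_cases h : (∃ c', IsLadder δ c') ∧ IsAcc E δ
    swap
    · exact ⟨id, fun h1 h2 => absurd ⟨h1, h2⟩ h⟩
    obtain ⟨h1, h2⟩ := h
    have hl := hc δ h1
    have hlt : ∀ n, drop E (c δ n) < δ := fun n => (drop_le _ _).trans_lt (hl.2.1 n)
    have hcof : ∀ x < δ, ∃ n, x < drop E (c δ n) := by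
      intro x hx
      obtain ⟨y, hy, h3, h4⟩ := h2 x hx
      obtain ⟨n, hn⟩ := hl.2.2 y h4
      exact ⟨n, h3.trans_le (le_drop hy hn.le)⟩
    have hstep : ∀ n, ∃ m, n < m ∧ drop E (c δ n) < drop E (c δ m) := by
      intro n
      obtain ⟨m, hm⟩ := hcof _ (hlt n)
      refine ⟨m, ?_, hm⟩
      by_contra hmn
      exact hm.not_ge (drop_mono_right E (hl.1.monotone (not_lt.1 hmn)))
    choose G hG1 hG2 using hstep
    have hit : ∀ n, G^[n + 1] 0 = G (G^[n] 0) := fun n => Function.iterate_succ_apply' G n 0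
    have hφ : StrictMono (fun n => G^[n] 0) :=
      strictMono_nat_of_lt_succ fun n => by simp only [hit]; exact hG1 _
    refine ⟨fun n => G^[n] 0, fun _ _ => ⟨?_, fun n => hlt _, ?_⟩⟩
    · exact strictMono_nat_of_lt_succ fun n => by simp only [hit]; exact hG2 _
    · intro x hx
      obtain ⟨n, hn⟩ := hcof x hx
      exact ⟨n, hn.trans_le (drop_mono_right E (hl.1.monotone (hφ.id_le n)))⟩
  choose φ hφ using hsub
  refine ⟨{δ | (∃ c', IsLadder δ c') ∧ IsAcc E δ}, fun δ n => drop E (c δ (φ δ n)),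
    fun δ hδ => hφ δ hδ.1 hδ.2, fun F => ?_⟩
  have hF : IsClub {δ : α | ∀ x < δ, F x < δ} := by
    rcases isClub_closure h0 F with h | ⟨a, ha⟩
    · exact h
    · exfalso
      apply ha
      obtain ⟨x, hx⟩ := exists_gt_of_mk_lt (s := F '' Iio a) (mk_image_le.trans_lt (hreg a))
      exact ⟨x, fun y hy => (hx y hy).le⟩
  obtain ⟨δ, h1, h2, h3⟩ := hg _ hF (fun x hx => absurd hx not_lt_bot)
  refine ⟨δ, ⟨h1, h2⟩, fun n => ?_⟩
  exact h3 (φ δ (n + 1)) _ ((hφ δ h1 h2).1 (Nat.lt_succ_self n))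

end General

end Pool.Agent.Lib.MP_953c35_gt
end

-- part Pool.Agent.Lib.MP_953c35_gt.Ideal
section

/-!
The tall ideal attached to a ladder system.
-/

namespace Pool.Agent.Lib.MP_953c35_gt

set_option linter.unusedSectionVars false

open Set Cardinal Order Filter

variable {α : Type} [ConditionallyCompleteLinearOrderBot α] [WellFoundedLT α]

/-- The intervals of the ladder `e` met by `B`. -/
def trace (e : ℕ → α) (B : Set α) : Set ℕ := {k | ∃ b ∈ B, e k ≤ b ∧ b < e (k + 1)}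

theorem trace_mono (e : ℕ → α) {B B' : Set α} (h : B ⊆ B') : trace e B ⊆ trace e B' :=
  fun _ ⟨b, hb, h1⟩ => ⟨b, h hb, h1⟩

theorem trace_union (e : ℕ → α) (B B' : Set α) : trace e (B ∪ B') = trace e B ∪ trace e B' := by
  ext k
  constructor
  · rintro ⟨b, hb | hb, h⟩
    · exact Or.inl ⟨b, hb, h⟩
    · exact Or.inr ⟨b, hb, h⟩
  · rintro (⟨b, hb, h⟩ | ⟨b, hb, h⟩)
    · exact ⟨b, Or.inl hb, h⟩
    · exact ⟨b, Or.inr hb, h⟩

theorem idx_unique {e : ℕ → α} (he : StrictMono e) {b : α} {k l : ℕ}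
    (h1 : e k ≤ b) (h2 : b < e (k + 1)) (h3 : e l ≤ b) (h4 : b < e (l + 1)) : k = l := by
  have a1 : k < l + 1 := he.lt_iff_lt.1 (h1.trans_lt h4)
  have a2 : l < k + 1 := he.lt_iff_lt.1 (h3.trans_lt h2)
  omega

theorem trace_finite {e : ℕ → α} (he : StrictMono e) {B : Set α} (hB : B.Finite) :
    (trace e B).Finite := by
  have : trace e B ⊆ ⋃ b ∈ B, {k | e k ≤ b ∧ b < e (k + 1)} := by
    rintro k ⟨b, hb, h⟩
    exact mem_biUnion hb h
  refine Finite.subset (hB.biUnion fun b _ => ?_) this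
  apply Set.Subsingleton.finite
  intro k hk l hl
  exact idx_unique he hk.1 hk.2 hl.1 hl.2

/-- The ideal of small sets. -/
def Small (T : Set α) (e : α → ℕ → α) (ν : ℕ → α) (B : Set α) : Prop :=
  BddAbove B ∧ (B ∩ range ν).Finite ∧ ∀ δ ∈ T, trace (e δ) B ∉ hyperfilter ℕ

variable {T : Set α} {e : α → ℕ → α} {ν : ℕ → α}

theorem Small.mono {B B' : Set α} (h : Small T e ν B') (hs : B ⊆ B') : Small T e ν B :=
  ⟨h.1.mono hs, h.2.1.subset (inter_subset_inter_left _ hs), fun δ hδ hm =>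
    h.2.2 δ hδ (mem_of_superset hm (trace_mono _ hs))⟩

theorem Small.union {B B' : Set α} (h : Small T e ν B) (h' : Small T e ν B') :
    Small T e ν (B ∪ B') := by
  refine ⟨h.1.union h'.1, ?_, fun δ hδ hm => ?_⟩
  · rw [union_inter_distrib_right]; exact h.2.1.union h'.2.1
  · rw [trace_union] at hm
    rcases Ultrafilter.union_mem_iff.1 hm with h1 | h1
    · exact h.2.2 δ hδ h1
    · exact h'.2.2 δ hδ h1

theorem small_of_finite (he : ∀ δ ∈ T, IsLadder δ (e δ)) {B : Set α} (hB : B.Finite) :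
    Small T e ν B :=
  ⟨hB.bddAbove, hB.subset inter_subset_left, fun δ hδ =>
    (trace_finite (he δ hδ).1 hB).notMem_hyperfilter⟩

theorem Small.exists_gap {B : Set α} (h : Small T e ν B) {δ : α} (hδ : δ ∈ T) :
    ∃ k, ∀ b ∈ B, ¬ (e δ k ≤ b ∧ b < e δ (k + 1)) := by
  by_contra hcon
  push Not at hcon
  apply h.2.2 δ hδ
  have : trace (e δ) B = Set.univ := eq_univ_of_forall fun k => hcon k
  rw [this]
  exact univ_mem

theorem exists_infinite_notMem {K : Set ℕ} (hK : K.Infinite) :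
    ∃ K' ⊆ K, K'.Infinite ∧ K' ∉ hyperfilter ℕ := by
  let f := hK.natEmbedding K
  have hinj : ∀ r : ℕ, Function.Injective (fun n : ℕ => (f (2 * n + r) : ℕ)) := by
    intro r a b hab
    have := f.injective (Subtype.ext hab)
    omega
  by_cases h0 : range (fun n : ℕ => (f (2 * n + 0) : ℕ)) ∈ hyperfilter ℕ
  · refine ⟨range (fun n : ℕ => (f (2 * n + 1) : ℕ)), ?_, infinite_range_of_injective (hinj 1),
      fun h1 => ?_⟩
    · rintro _ ⟨n, rfl⟩; exact (f _).2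
    · obtain ⟨x, ⟨a, ha⟩, ⟨b, hb⟩⟩ := Ultrafilter.nonempty_of_mem (inter_mem h0 h1)
      have := f.injective (Subtype.ext (ha.trans hb.symm))
      omega
  · refine ⟨_, ?_, infinite_range_of_injective (hinj 0), h0⟩
    rintro _ ⟨n, rfl⟩; exact (f _).2

theorem exists_strictMono_of_infinite {P : Set α} (hP : P.Infinite) :
    ∃ y : ℕ → α, StrictMono y ∧ ∀ n, y n ∈ P := by
  let f := hP.natEmbedding P
  obtain ⟨g, hg⟩ := (wellQuasiOrdered_le (α := α)).exists_monotone_subseq (fun n => (f n : α))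
  refine ⟨fun n => f (g n), fun a b hab => lt_of_le_of_ne (hg a b hab.le) fun h => ?_,
    fun n => (f _).2⟩
  have := g.injective (f.injective (Subtype.ext h))
  omega

theorem trace_finite_of_ne {δ δ' : α} {y c : ℕ → α} (hy : IsLadder δ y) (hc : IsLadder δ' c)
    (hne : δ ≠ δ') : (trace c (range y)).Finite := by
  rcases lt_or_gt_of_ne hne with h | h
  · obtain ⟨n, hn⟩ := hc.2.2 δ h
    refine (finite_Iio n).subset ?_
    rintro k ⟨_, ⟨m, rfl⟩, h1, _⟩
    exact hc.1.lt_iff_lt.1 ((h1.trans_lt (hy.2.1 m)).trans hn)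
  · obtain ⟨n, hn⟩ := hy.2.2 δ' h
    refine (trace_finite hc.1 ((finite_Iio n).image y)).subset ?_
    rintro k ⟨_, ⟨m, rfl⟩, h1, h2⟩
    refine ⟨y m, ⟨m, ?_, rfl⟩, h1, h2⟩
    exact hy.1.lt_iff_lt.1 ((h2.trans (hc.2.1 _)).trans hn)

theorem trace_infinite {δ : α} {y c : ℕ → α} (hy : IsLadder δ y) (hc : IsLadder δ c) :
    (trace c (range y)).Infinite := by
  apply infinite_of_forall_exists_gt
  intro n
  obtain ⟨m, hm⟩ := hy.2.2 _ (hc.2.1 (n + 1))
  have hex : ∃ k, y m < c k := hc.2.2 _ (hy.2.1 m)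
  classical
  have h1 := Nat.find_spec hex
  have h2 : n + 1 < Nat.find hex := hc.1.lt_iff_lt.1 (hm.trans h1)
  obtain ⟨k, hk⟩ : ∃ k, Nat.find hex = k + 1 := ⟨Nat.find hex - 1, by omega⟩
  have h3 : ¬ y m < c k := Nat.find_min hex (by omega)
  refine ⟨k, ⟨y m, ⟨m, rfl⟩, not_lt.1 h3, hk ▸ h1⟩, by omega⟩

/-- Tallness: every infinite set missing the range of `ν` has an infinite small subset. -/
theorem tall (h0 : ℵ₀ < cof α) (he : ∀ δ ∈ T, IsLadder δ (e δ)) {P : Set α} (hP : P.Infinite)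
    (hν : ∀ p ∈ P, p ∉ range ν) : ∃ B ⊆ P, B.Infinite ∧ Small T e ν B := by
  obtain ⟨y, hy, hyP⟩ := exists_strictMono_of_infinite hP
  have hl := isLadder_sSup h0 hy
  set δ := sSup (range y) with hδ
  have hsub : range y ⊆ P := by rintro _ ⟨n, rfl⟩; exact hyP n
  have key : ∀ B ⊆ range y, (δ ∈ T → trace (e δ) B ∉ hyperfilter ℕ) → Small T e ν B := by
    intro B hB h
    refine ⟨(bddAbove_seq h0 y).mono hB, ?_, fun δ' hδ' => ?_⟩
    · have : B ∩ range ν = ∅ := eq_empty_of_forall_notMem fun b hb => hν b (hsub (hB hb.1)) hb.2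
      rw [this]; exact finite_empty
    · by_cases hne : δ = δ'
      · subst hne; exact h hδ'
      · exact ((trace_finite_of_ne hl (he δ' hδ') hne).subset (trace_mono _ hB)).notMem_hyperfilter
  by_cases hT : δ ∈ T
  · obtain ⟨K, hK1, hK2, hK3⟩ := exists_infinite_notMem (trace_infinite hl (he δ hT))
    let B : Set α := {b | b ∈ range y ∧ ∃ k ∈ K, e δ k ≤ b ∧ b < e δ (k + 1)}
    have hB : B ⊆ range y := fun b hb => hb.1
    have htr : trace (e δ) B = K := by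
      ext k
      constructor
      · rintro ⟨b, ⟨_, l, hl1, hl2, hl3⟩, h1, h2⟩
        rw [idx_unique (he δ hT).1 h1 h2 hl2 hl3]; exact hl1
      · intro hk
        obtain ⟨b, hb, h1, h2⟩ := hK1 hk
        exact ⟨b, ⟨hb, k, hk, h1, h2⟩, h1, h2⟩
    refine ⟨B, hB.trans hsub, fun hfin => hK2 ?_, key B hB fun _ => htr ▸ hK3⟩
    rw [← htr]
    exact trace_finite (he δ hT).1 hfin
  · exact ⟨range y, hsub, infinite_range_of_injective hy.injective,
      key _ Subset.rfl fun h => absurd h hT⟩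

end Pool.Agent.Lib.MP_953c35_gt
end

-- part Pool.Agent.Lib.MP_953c35_gt.Game
section

/-!
The counterexample: one-point compactification of a discrete well-order.
-/

namespace Pool.Agent.Lib.MP_953c35_gt

set_option linter.unusedSectionVars false

open Set Cardinal Order Filter OnePoint

theorem TwoWinsMarkov.twoWins {X : Type} [TopologicalSpace X] {𝒜 : Set (Set X)}
    {P : Set (Set X) → Prop} (h : TwoWinsMarkov 𝒜 P) : TwoWins 𝒜 P := by
  obtain ⟨σ, h1, h2⟩ := h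
  exact ⟨fun n A => σ (A (Fin.last n)) n, fun n A hA => h1 _ (hA _) n, fun A hA => h2 A hA⟩

variable {α : Type} [ConditionallyCompleteLinearOrderBot α] [WellFoundedLT α]
  [TopologicalSpace α] [DiscreteTopology α]

/-- Closed sets whose isolated part is bounded. -/
def famA (α : Type) [ConditionallyCompleteLinearOrderBot α] [TopologicalSpace α] :
    Set (Set (OnePoint α)) :=
  {A | IsClosed A ∧ BddAbove (((↑) : α → OnePoint α) ⁻¹' A)}

/-- Closed sets whose isolated part is small. -/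
def famB (T : Set α) (e : α → ℕ → α) (ν : ℕ → α) : Set (Set (OnePoint α)) :=
  {A | IsClosed A ∧ Small T e ν (((↑) : α → OnePoint α) ⁻¹' A)}

/-- Adding the point at infinity. -/
def plus (s : Set α) : Set (OnePoint α) := insert ∞ (((↑) : α → OnePoint α) '' s)

theorem preimage_plus (s : Set α) : ((↑) : α → OnePoint α) ⁻¹' plus s = s := by
  ext x
  simp [plus]

theorem isClosed_plus (s : Set α) : IsClosed (plus s) := by
  have h : ∞ ∈ plus s := mem_insert _ _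
  rw [isClosed_iff_of_mem h]
  exact isClosed_discrete _

theorem preimage_singleton_finite (x : OnePoint α) :
    (((↑) : α → OnePoint α) ⁻¹' {x}).Finite :=
  (finite_singleton x).preimage coe_injective.injOn

theorem legal_compl {A : Set (OnePoint α)} {p : α} (hp : (p : OnePoint α) ∉ A) :
    Legal A {(p : OnePoint α)}ᶜ := by
  refine ⟨isOpen_compl_singleton, fun x hx hxp => hp (hxp ▸ hx), fun h => ?_⟩
  have : (p : OnePoint α) ∈ ({(p : OnePoint α)}ᶜ : Set (OnePoint α)) := h ▸ mem_univ _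
  exact this rfl

theorem compl_inj : Function.Injective (fun p : α => ({(p : OnePoint α)}ᶜ : Set (OnePoint α))) := by
  intro p q h
  exact coe_injective (singleton_injective (compl_injective h))

variable {T : Set α} {e : α → ℕ → α} {ν : ℕ → α}

theorem exists_fresh (h0 : ℵ₀ < cof α) (ν : ℕ → α) {A : Set (OnePoint α)} (hA : A ∈ famA α) :
    ∃ p : α, (p : OnePoint α) ∉ A ∧ p ∉ range ν := by
  obtain ⟨u, hu⟩ := hA.2.union (bddAbove_seq h0 ν)
  obtain ⟨p, hp⟩ := exists_gt' h0 u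
  exact ⟨p, fun h => (hu (Or.inl h)).not_gt hp, fun h => (hu (Or.inr h)).not_gt hp⟩

theorem markov_gamma (h0 : ℵ₀ < cof α) (he : ∀ δ ∈ T, IsLadder δ (e δ)) :
    TwoWinsMarkov (famA α) (GammaCover (famB T e ν)) := by
  have hp : ∀ A : Set (OnePoint α), ∃ p : α, A ∈ famA α → (p : OnePoint α) ∉ A ∧ p ∉ range ν := by
    intro A
    by_cases h : A ∈ famA α
    · obtain ⟨p, hp⟩ := exists_fresh h0 ν h
      exact ⟨p, fun _ => hp⟩
    · exact ⟨⊥, fun h' => absurd h' h⟩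
  choose p hp using hp
  refine ⟨fun A _ => {(p A : OnePoint α)}ᶜ, fun A hA _ => legal_compl (hp A hA).1, ?_⟩
  rintro A hA ⟨hinf, -, -, -, hfin⟩
  have hP : (range fun n => p (A n)).Infinite := by
    intro hf
    apply hinf
    refine (hf.image (fun q : α => ({(q : OnePoint α)}ᶜ : Set (OnePoint α)))).subset ?_
    rintro _ ⟨n, rfl⟩
    exact ⟨_, ⟨n, rfl⟩, rfl⟩
  obtain ⟨B, hB1, hB2, hB3⟩ := tall (ν := ν) h0 he hP (by
    rintro _ ⟨n, rfl⟩; exact (hp _ (hA n)).2)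
  have hmem : plus B ∈ famB T e ν := ⟨isClosed_plus B, by rw [preimage_plus]; exact hB3⟩
  apply (hB2.image compl_inj.injOn)
  refine (hfin _ hmem).subset ?_
  rintro _ ⟨b, hb, rfl⟩
  obtain ⟨n, hn⟩ := hB1 hb
  refine ⟨⟨n, by simp only [← hn]⟩, fun h => ?_⟩
  exact h (Or.inr ⟨b, hb, rfl⟩) rfl

theorem exists_gamma (hν : StrictMono ν) : ∃ 𝒰, GammaCover (famB T e ν) 𝒰 := by
  refine ⟨range fun n => ({(ν n : OnePoint α)}ᶜ : Set (OnePoint α)),
    infinite_range_of_injective (compl_inj.comp hν.injective), ?_, ?_, ?_, ?_⟩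
  · rintro _ ⟨n, rfl⟩; exact isOpen_compl_singleton
  · apply eq_univ_of_forall
    intro x
    by_cases h : x = (ν 0 : OnePoint α)
    · refine ⟨_, ⟨1, rfl⟩, fun h1 => ?_⟩
      have : ν 0 = ν 1 := coe_injective (h.symm.trans h1)
      exact absurd (hν.injective this) (by omega)
    · exact ⟨_, ⟨0, rfl⟩, h⟩
  · rintro ⟨n, hn⟩
    have : (ν n : OnePoint α) ∈ ({(ν n : OnePoint α)}ᶜ : Set (OnePoint α)) := by
      have h2 : ({(ν n : OnePoint α)}ᶜ : Set (OnePoint α)) = Set.univ := hn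
      rw [h2]; exact mem_univ _
    exact this rfl
  · intro B hB
    refine (hB.2.2.1.image (fun q : α => ({(q : OnePoint α)}ᶜ : Set (OnePoint α)))).subset ?_
    rintro _ ⟨⟨n, rfl⟩, h⟩
    refine ⟨ν n, ⟨?_, n, rfl⟩, rfl⟩
    by_contra hn
    exact h fun x hx hx' => hn (by rw [mem_preimage, ← (show x = _ from hx')]; exact hx)

theorem singleton_mem_famB (he : ∀ δ ∈ T, IsLadder δ (e δ)) (x : OnePoint α) :
    {x} ∈ famB T e ν :=
  ⟨isClosed_singleton, small_of_finite he (preimage_singleton_finite x)⟩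

theorem not_twoWins_O (h0 : ℵ₀ < cof α) (hreg : ∀ a : α, #(Iio a) < cof α)
    (he : ∀ δ ∈ T, IsLadder δ (e δ))
    (hg : ∀ F : α → α, ∃ δ ∈ T, ∀ n, F (e δ n) < e δ (n + 1)) :
    ¬ TwoWins (famA α) (OCover (famB T e ν)) := by
  rintro ⟨σ, hleg, hwin⟩
  have hA : ∀ x : α, plus (Iio x) ∈ famA α := fun x =>
    ⟨isClosed_plus _, by rw [preimage_plus]; exact bddAbove_Iio⟩
  have hl : ∀ (n : ℕ) (l : Fin (n + 1) → α),
      Legal (plus (Iio (l (Fin.last n)))) (σ n fun i => plus (Iio (l i))) :=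
    fun n l => hleg n (fun i => plus (Iio (l i))) (fun i => hA _)
  have hbound : ∀ (n : ℕ) (l : Fin (n + 1) → α), ∃ u : α, ∀ p : α,
      (p : OnePoint α) ∉ σ n (fun i => plus (Iio (l i))) → p ≤ u := by
    intro n l
    obtain ⟨h1, h2, -⟩ := hl n l
    have h3 := ((isOpen_iff_of_mem' (h2 (mem_insert _ _))).1 h1).1
    obtain ⟨u, hu⟩ := h3.finite_of_discrete.bddAbove
    exact ⟨u, fun p hp => hu hp⟩
  choose g hg' using hbound
  have hF : ∀ x : α, ∃ u : α, ∀ (n : ℕ) (l : Fin (n + 1) → α), (∀ i, l i ≤ x) → g n l < u := by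
    intro x
    obtain ⟨x', hx'⟩ := exists_gt' h0 x
    have hcard : #(Σ n : ℕ, (Fin (n + 1) → Iio x')) < cof α := by
      have h1 : ∀ n : ℕ, #(Fin (n + 1) → Iio x') ≤ max #(Iio x') ℵ₀ := by
        intro n
        have : #(Fin (n + 1) → Iio x') = #(Iio x') ^ (n + 1) := by
          rw [← Cardinal.power_natCast]; simp
        rw [this]
        exact power_nat_le_max
      rw [mk_sigma]
      refine lt_of_le_of_lt (sum_le_sum _ _ h1) ?_
      rw [sum_const', mk_nat]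
      refine lt_of_le_of_lt (mul_le_max _ _) ?_
      simp only [max_lt_iff]
      exact ⟨⟨h0, hreg x', h0⟩, h0⟩
    obtain ⟨u, hu⟩ := exists_gt_of_mk_lt
      (s := range fun z : (Σ n : ℕ, (Fin (n + 1) → Iio x')) => g z.1 (fun i => (z.2 i : α)))
      (mk_range_le.trans_lt hcard)
    exact ⟨u, fun n l h => hu _ ⟨⟨n, fun i => ⟨l i, (h i).trans_lt hx'⟩⟩, rfl⟩⟩
  choose F hF using hF
  obtain ⟨δ, hδ, hguess⟩ := hg F
  have hmono := (he δ hδ).1
  apply hwin (fun n => plus (Iio (e δ n))) (fun n => hA _)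
  have hU := fun n => hl n (fun i => e δ i)
  have key : ∀ B ∈ famB T e ν, ∃ n, B ⊆ σ n (fun i : Fin (n + 1) => plus (Iio (e δ i))) := by
    intro B hB
    obtain ⟨k, hk⟩ := hB.2.exists_gap hδ
    refine ⟨k, fun x hx => ?_⟩
    induction x using OnePoint.rec with
    | infty => exact (hU k).2.1 (mem_insert _ _)
    | coe p =>
      by_contra hp
      apply hk p hx
      constructor
      · by_contra hlt
        exact hp ((hU k).2.1 (Or.inr ⟨p, not_le.1 hlt, rfl⟩))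
      · refine (hg' k (fun i => e δ i) p hp).trans_lt ((hF (e δ k) k _ fun i => ?_).trans (hguess k))
        exact hmono.monotone (Nat.lt_succ_iff.1 i.2)
  refine ⟨?_, ?_, ?_, fun B hB => ?_⟩
  · rintro _ ⟨n, rfl⟩; exact (hU n).1
  · apply eq_univ_of_forall
    intro x
    obtain ⟨n, hn⟩ := key _ (singleton_mem_famB he x)
    exact ⟨_, ⟨n, rfl⟩, hn rfl⟩
  · rintro ⟨n, hn⟩; exact (hU n).2.2 hn
  · obtain ⟨n, hn⟩ := key B hB
    exact ⟨_, ⟨n, rfl⟩, hn⟩

theorem main_general {ι : Type} [LinearOrder ι] [WellFoundedLT ι] (hι0 : ℵ₀ < cof ι)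
    (hι : #ι < cof α) (hreg : ∀ a : α, #(Iio a) < cof α) :
    ∃ 𝒜 ℬ : Set (Set (OnePoint α)),
      IdealBase 𝒜 ∧ (∀ A ∈ 𝒜, ∃ U, Legal A U) ∧ (∀ A ∈ 𝒜, IsClosed A) ∧
      IdealBase ℬ ∧ ℬ ⊆ 𝒜 ∧ (∀ x, {x} ∈ ℬ) ∧ (∃ 𝒰, GammaCover ℬ 𝒰) ∧
      TwoWinsMarkov 𝒜 (GammaCover ℬ) ∧ TwoWins 𝒜 (GammaCover ℬ) ∧
      ¬ TwoWinsMarkov 𝒜 (OCover ℬ) ∧ ¬ TwoWins 𝒜 (OCover ℬ) := by
  have h0 : ℵ₀ < cof α := (hι0.trans_le (cof_le_cardinalMk ι)).trans hι
  obtain ⟨T, e, he, hg⟩ := guess hι0 hι hreg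
  obtain ⟨δ, hδ, -⟩ := hg id
  have hν := (he δ hδ).1
  have h1 := markov_gamma (ν := e δ) h0 he
  have h2 := not_twoWins_O (ν := e δ) h0 hreg he hg
  refine ⟨famA α, famB T e (e δ), ?_, ?_, fun A hA => hA.1, ?_, fun B hB => ⟨hB.1, hB.2.1⟩,
    singleton_mem_famB he, exists_gamma hν, h1, h1.twoWins, fun h => h2 h.twoWins, h2⟩
  · intro A hA A' hA'
    exact ⟨A ∪ A', ⟨hA.1.union hA'.1, by rw [preimage_union]; exact hA.2.union hA'.2⟩, Subset.rfl⟩
  · intro A hA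
    obtain ⟨p, hp, -⟩ := exists_fresh h0 (e δ) hA
    exact ⟨_, legal_compl hp⟩
  · intro A hA A' hA'
    exact ⟨A ∪ A', ⟨hA.1.union hA'.1, by rw [preimage_union]; exact hA.2.union hA'.2⟩, Subset.rfl⟩

end Pool.Agent.Lib.MP_953c35_gt
end
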